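import Pool.Agent.Lib.MP_688fd0_co.TF.Iface2
import Pool.Agent.Lib.MP_688fd0_co.TE.H41.Mat

/-!
# Theorem F, module KPF: the closed walk kernels
-/

namespace Pool.Agent.Lib.MP_688fd0_co.TF.H91

open Pool.Agent.Lib.MP_688fd0_co.TE

universe u

section

set_option linter.unusedSectionVars false

variable {G : Type u} [Group G] [Fintype G] [DecidableEq G]

theorem r0_le (c : Ctx G) : 100 * (c.r0 + 1) ≤ c.k := by
  have h := c.hkr
  have h1 : (0 : ℝ) ≤ Real.log (Fintype.card G) := Real.log_natCast_nonneg _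
  have h2 : (0 : ℝ) ≤ c.r0 := Nat.cast_nonneg _
  have h3 : (100 : ℝ) * ((c.r0 : ℝ) + 1) ≤ c.k := by
    have h4 : (100 : ℝ) * ((c.r0 : ℝ) + 1) ≤ 100 * ((c.r0 : ℝ) + 1) ^ 2 := by nlinarith
    have h5 : 100 * ((c.r0 : ℝ) + 1) ^ 2 ≤
        100 * ((c.r0 : ℝ) + 1) ^ 2 * (Real.log (Fintype.card G) + 1) := by
      nlinarith [mul_nonneg (by positivity : (0:ℝ) ≤ 100 * ((c.r0 : ℝ) + 1) ^ 2) h1]
    linarith
  exact_mod_cast h3

theorem b_one (c : Ctx G) : 1 ≤ c.b := by
  unfold Ctx.b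
  exact_mod_cast c.hB.ne.card_pos

theorem ha_eq (c : Ctx G) (par : Bool) : c.ha par = c.k ∨ c.ha par = c.k + 1 := by
  unfold Ctx.ha
  split
  · exact Or.inr rfl
  · exact Or.inl rfl

/-- Periodicity of the kernels. -/
theorem K_per (c : Ctx G) (τ : Bool) (h : ∀ i n, c.K τ (i + 3) n = c.K τ i n) (m i n : ℕ) :
    c.K τ (i + 3 * m) n = c.K τ i n := by
  induction m with
  | zero => simp
  | succ m ih =>
    rw [show i + 3 * (m + 1) = (i + 3 * m) + 3 by ring, h, ih]

/-- Sum over the end point. -/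
theorem sum_v {K0 K1 : Matrix G G ℝ} (h0 : Inv K0) (h1 : Inv K1) (g x : G) :
    ∑ v, K0 x v * K1 (v * g) x = (K1 * K0) g 1 := by
  rw [Matrix.mul_apply]
  refine Fintype.sum_equiv ((Equiv.inv G).trans (Equiv.mulRight x)) _ _ (fun v => ?_)
  have e0 : K0 x v = K0 (v⁻¹ * x) 1 := by
    have := h0 v⁻¹ x v
    rw [inv_mul_cancel] at this
    exact this.symm
  have e1 : K1 (v * g) x = K1 g (v⁻¹ * x) := by
    have := h1 v⁻¹ (v * g) x
    rw [inv_mul_cancel_left] at this
    exact this.symm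
  simp only [Equiv.trans_apply, Equiv.inv_apply, Equiv.coe_mulRight]
  rw [e0, e1, mul_comm]

/-- Sum over the base point. -/
theorem sum_x (K0 K1 : Matrix G G ℝ) (g v : G) :
    ∑ x, K0 x v * K1 (v * g) x = (K1 * K0) (v * g) v := by
  rw [Matrix.mul_apply]
  exact Finset.sum_congr rfl (fun x _ => mul_comm _ _)

end

theorem kpf (hK : KERF_S.{u}) (hQ : QQF_S.{u}) : KPF_S.{u} := by
  intro G _ _ _ c τ par j j' g hjj hj6 hja
  obtain ⟨kDI, kadd, kper, -, kS, kgs, kb, -, -, -, -, -⟩ := hK G c τ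
  obtain ⟨-, qpos, -, qmono, -, -, -, qmul, q2, -, -, -⟩ := hQ G c τ
  have hr := r0_le c
  have hb := b_one c
  have hbpos : 0 < c.b := by linarith
  obtain ⟨a, ha⟩ : ∃ a, a = c.ha par := ⟨_, rfl⟩
  have hak : c.k ≤ a ∧ a ≤ c.k + 1 := by
    rcases ha_eq c par with h | h <;> rw [ha, h] <;> constructor <;> omega
  rw [← ha] at hja ⊢
  have hq := qpos a
  have hrr : 2 ≤ c.r0 := c.hr1
  have e2 : ∀ u, u ≤ 4 → c.qq τ (a - u) ≤ 2 * c.qq τ a := fun u hu =>
    q2 a u hak.1 hak.2 (by omega)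
  have i0 := (kDI 0 j).2
  have i1 := (kDI j' (6 * a - j')).2
  have n0 := (kDI 0 j).1.nn
  have n1 := (kDI j' (6 * a - j')).1.nn
  -- the product in the rotated order
  have hprod : c.K τ j' (6 * a - j') * c.K τ 0 j = c.K τ j' (6 * a - j' + j) := by
    rw [kadd, show j' + (6 * a - j') = 0 + 3 * (2 * a) by omega, K_per c τ kper]
  have hbd : ∀ x y, (c.K τ j' (6 * a - j') * c.K τ 0 j) x y ≤ 2 * c.qq τ a := by
    intro x y
    rw [hprod]
    refine (kgs _ _ _ _).trans ?_
    unfold Ctx.gs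
    rw [if_pos (by omega)]
    exact (qmono (a - 2) _ (by omega)).trans (e2 2 (by omega))
  have hone : j = j' → (c.K τ j (6 * a - j) * c.K τ 0 j) 1 1 = c.qq τ a := by
    intro h
    subst h
    rw [H41.cyc i1 i0]
    have := kadd 0 j (6 * a - j)
    rw [zero_add] at this
    rw [← this, show j + (6 * a - j) = 3 * (2 * a) by omega, kS]
    rfl
  have hsumv : ∀ x, ∑ v, c.kp τ a j j' g x v =
      (c.K τ j' (6 * a - j') * c.K τ 0 j) g 1 / c.qq τ a := by
    intro x
    unfold Ctx.kp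
    rw [← Finset.sum_div, sum_v i0 i1]
  have hsumx : ∀ v, ∑ x, c.kp τ a j j' g x v =
      (c.K τ j' (6 * a - j') * c.K τ 0 j) (v * g) v / c.qq τ a := by
    intro v
    unfold Ctx.kp
    rw [← Finset.sum_div, sum_x]
  have hdiv : ∀ t : ℝ, t ≤ 2 * c.qq τ a → t / c.qq τ a ≤ 2 := fun t ht => by
    rw [div_le_iff₀ hq]; exact ht
  refine ⟨?_, ?_, ?_, ?_, ?_, ?_, ?_⟩
  · intro x v
    unfold Ctx.kp
    exact div_nonneg (mul_nonneg (n0 _ _) (n1 _ _)) hq.le
  · intro y x v
    unfold Ctx.kp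
    rw [i0, mul_assoc y v g, i1]
  · intro x
    rw [hsumv]
    exact hdiv _ (hbd _ _)
  · intro v
    rw [hsumx]
    exact hdiv _ (hbd _ _)
  · intro x
    unfold Ctx.kp
    rw [← Finset.sum_div, sum_v i0 (kDI j (6 * a - j)).2]
    by_cases h : j = j'
    · rw [hone h, div_self hq.ne']
    · have i1' := (kDI j (6 * a - j)).2
      rw [H41.cyc i1' i0]
      have := kadd 0 j (6 * a - j)
      rw [zero_add] at this
      rw [← this, show j + (6 * a - j) = 3 * (2 * a) by omega, kS]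
      exact div_self hq.ne'
  · intro v
    unfold Ctx.kp
    rw [← Finset.sum_div, sum_x]
    have i1' := (kDI j (6 * a - j)).2
    have h3 := (H41.inv_mul i1' i0) v 1 1
    rw [mul_one] at h3
    rw [mul_one, h3, H41.cyc i1' i0]
    have := kadd 0 j (6 * a - j)
    rw [zero_add] at this
    rw [← this, show j + (6 * a - j) = 3 * (2 * a) by omega, kS]
    exact div_self hq.ne'
  · intro hj1 hj2 x v
    unfold Ctx.kp
    have hsq : 0 < c.b ^ (1 / 2 : ℝ) := Real.rpow_pos_of_pos hbpos _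
    have hsb : 1 / c.b ≤ 1 / c.b ^ (1 / 2 : ℝ) := by
      apply one_div_le_one_div_of_le hsq
      calc c.b ^ (1 / 2 : ℝ) ≤ c.b ^ (1 : ℝ) :=
            Real.rpow_le_rpow_of_exponent_le hb (by norm_num)
        _ = c.b := Real.rpow_one _
    rw [div_le_iff₀ hq]
    have key : c.K τ 0 j x v * c.K τ j' (6 * a - j') (v * g) x ≤
        2 * c.qq τ a * (1 / c.b ^ (1 / 2 : ℝ)) := by
      rcases Nat.lt_or_ge j 10 with h10 | h10
      · have b0 : c.K τ 0 j x v ≤ 1 / c.b := kb 0 j x v (by omega) (by omega)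
        have b1 : c.K τ j' (6 * a - j') (v * g) x ≤ 2 * c.qq τ a := by
          refine (kgs _ _ _ _).trans ?_
          unfold Ctx.gs
          rw [if_pos (by omega)]
          exact (qmono (a - 4) _ (by omega)).trans (e2 4 (by omega))
        calc _ ≤ 1 / c.b * (2 * c.qq τ a) :=
              mul_le_mul b0 b1 (n1 _ _) (by positivity)
          _ ≤ 1 / c.b ^ (1 / 2 : ℝ) * (2 * c.qq τ a) :=
              mul_le_mul_of_nonneg_right hsb (by positivity)
          _ = _ := by ring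
      · rcases Nat.lt_or_ge (6 * a - j') 10 with h11 | h11
        · have b1 : c.K τ j' (6 * a - j') (v * g) x ≤ 1 / c.b := kb _ _ _ _ (by omega) (by omega)
          have b0 : c.K τ 0 j x v ≤ 2 * c.qq τ a := by
            refine (kgs _ _ _ _).trans ?_
            unfold Ctx.gs
            rw [if_pos (by omega)]
            exact (qmono (a - 4) _ (by omega)).trans (e2 4 (by omega))
          calc _ ≤ (2 * c.qq τ a) * (1 / c.b) :=
                mul_le_mul b0 b1 (n1 _ _) (by positivity)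
            _ ≤ (2 * c.qq τ a) * (1 / c.b ^ (1 / 2 : ℝ)) :=
                mul_le_mul_of_nonneg_left hsb (by positivity)
        · have b0 : c.K τ 0 j x v ≤ c.qq τ ((j - 4) / 6) := by
            refine (kgs _ _ _ _).trans ?_
            unfold Ctx.gs
            rw [if_pos (by omega)]
          have b1 : c.K τ j' (6 * a - j') (v * g) x ≤ c.qq τ ((6 * a - j' - 4) / 6) := by
            refine (kgs _ _ _ _).trans ?_
            unfold Ctx.gs
            rw [if_pos (by omega)]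
          have b2 := qmul ((j - 4) / 6) ((6 * a - j' - 4) / 6) (by omega) (by omega) (by omega)
          have b3 : c.qq τ ((j - 4) / 6 + (6 * a - j' - 4) / 6) ≤ 2 * c.qq τ a :=
            (qmono (a - 4) _ (by omega)).trans (e2 4 (by omega))
          calc _ ≤ c.qq τ ((j - 4) / 6) * c.qq τ ((6 * a - j' - 4) / 6) :=
                mul_le_mul b0 b1 (n1 _ _) (qpos _).le
            _ ≤ c.qq τ ((j - 4) / 6 + (6 * a - j' - 4) / 6) / c.b ^ (1 / 2 : ℝ) := b2
            _ ≤ 2 * c.qq τ a / c.b ^ (1 / 2 : ℝ) := div_le_div_of_nonneg_right b3 hsq.le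
            _ = _ := by ring
    calc _ ≤ 2 * c.qq τ a * (1 / c.b ^ (1 / 2 : ℝ)) := key
      _ ≤ 4 * c.qq τ a * (1 / c.b ^ (1 / 2 : ℝ)) := by
          apply mul_le_mul_of_nonneg_right _ (by positivity)
          linarith
      _ = _ := by ring

end Pool.Agent.Lib.MP_688fd0_co.TF.H91
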