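import Pool.Agent.Lib.MP_688fd0_co.TF.H91.Kpf
import Pool.Agent.Lib.MP_688fd0_co.TE.H43.Wlk

/-!
# Theorem F, module WLKF: the coupled link law as a law on sequences
-/

namespace Pool.Agent.Lib.MP_688fd0_co.TF.H91

open Pool.Agent.Lib.MP_688fd0_co.TE

universe u

section gen

set_option linter.unusedSectionVars false

variable {G : Type u} [Group G] [Fintype G] [DecidableEq G]

theorem cpl_ne (cc : ℕ → Matrix G G ℝ) (m : ℕ) (ρ : G → ℝ) (p : ℕ) (h : p ≠ m) :
    cpl cc m ρ p = cc p := if_neg h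

theorem cpl_eq (cc : ℕ → Matrix G G ℝ) (m : ℕ) (ρ : G → ℝ) (a b : G) :
    cpl cc m ρ m a b = cc m a b * ρ b := by
  have h : cpl cc m ρ m = fun a b => cc m a b * ρ b := if_pos rfl
  rw [h]

theorem kn_cpl_free (cc : ℕ → Matrix G G ℝ) (m : ℕ) (ρ : G → ℝ) (i n : ℕ)
    (h : i + n < m ∨ m ≤ i) : Kn (cpl cc m ρ) i n = Kn cc i n := by
  apply H43.kn_congr
  intro p h1 h2
  exact cpl_ne cc m ρ p (by omega)

theorem kn_cpl_mid (cc : ℕ → Matrix G G ℝ) (m : ℕ) (ρ : G → ℝ) (i : ℕ) (h : i < m) (a b : G) :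
    Kn (cpl cc m ρ) i (m - i) a b = Kn cc i (m - i) a b * ρ b := by
  obtain ⟨l, hl⟩ : ∃ l, m = i + l + 1 := ⟨m - i - 1, by omega⟩
  have e : m - i = l + 1 := by omega
  rw [e]
  simp only [Kn]
  rw [kn_cpl_free cc m ρ i l (by omega), Matrix.mul_apply, Matrix.mul_apply, Finset.sum_mul]
  apply Finset.sum_congr rfl
  intro t _
  rw [← hl, cpl_eq]
  ring

theorem kn_cpl_split (cc : ℕ → Matrix G G ℝ) (m : ℕ) (ρ : G → ℝ) (i n : ℕ) (h : i < m)
    (h' : m ≤ i + n) (a b : G) :
    Kn (cpl cc m ρ) i n a b =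
      ∑ w, Kn cc i (m - i) a w * ρ w * Kn cc m (i + n - m) w b := by
  have e : n = (m - i) + (i + n - m) := by omega
  conv_lhs => rw [e, H43.kn_add]
  rw [show i + (m - i) = m by omega, kn_cpl_free cc m ρ m _ (Or.inr le_rfl), Matrix.mul_apply]
  apply Finset.sum_congr rfl
  intro w _
  rw [kn_cpl_mid cc m ρ i h]

theorem rho_nonneg {a b : ℝ} (ha : 0 ≤ a) (hb : 0 ≤ b) : 0 ≤ rho a b :=
  le_min (div_nonneg ha hb) (div_nonneg hb ha)

theorem rho_le_one {a b : ℝ} (ha : 0 ≤ a) (hb : 0 ≤ b) : rho a b ≤ 1 := by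
  unfold rho
  rcases le_total a b with h | h
  · exact (min_le_left _ _).trans (div_le_one_of_le₀ h hb)
  · exact (min_le_right _ _).trans (div_le_one_of_le₀ h ha)

theorem rho_mul_right {a b : ℝ} (ha : 0 ≤ a) (hb : 0 ≤ b) : rho a b * b ≤ a := by
  rcases hb.eq_or_lt with h | h
  · rw [← h, mul_zero]; exact ha
  · calc rho a b * b ≤ a / b * b := mul_le_mul_of_nonneg_right (min_le_left _ _) hb
      _ = a := div_mul_cancel₀ a h.ne'

theorem rho_mul_left {a b : ℝ} (ha : 0 ≤ a) (hb : 0 ≤ b) : rho a b * a ≤ b := by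
  rcases ha.eq_or_lt with h | h
  · rw [← h, mul_zero]; exact hb
  · calc rho a b * a ≤ b / a * a := mul_le_mul_of_nonneg_right (min_le_right _ _) ha
      _ = b := div_mul_cancel₀ b h.ne'

/-- Two marked times of the link walk. -/
theorem pr_two (c : Ctx G) (τ par : Bool) (x y : G) (i j : ℕ) (hij : i < j)
    (hj : j < c.len par + 1) (v w : G) :
    Pr (c.WL τ par x y) (fun z => z ⟨i, by omega⟩ = v ∧ z ⟨j, hj⟩ = w) =
      Kn (c.cx τ par x y) 0 i x v * Kn (c.cx τ par x y) i (j - i) v w *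
        Kn (c.cx τ par x y) j (c.len par - j) w y / c.FF τ par x y := by
  unfold Pr
  rw [← H43.two_marks (c.cx τ par x y) (c.len par) i j hij hj x y v w, Finset.sum_div]
  apply Finset.sum_congr rfl
  intro z _
  unfold Ctx.WL
  ring

theorem wl_ne (c : Ctx G) (τ par : Bool) (x y : G) (z : Fin (c.len par + 1) → G)
    (h : c.WL τ par x y z ≠ 0) : z 0 = x ∧ z (Fin.last _) = y := by
  by_contra hn
  apply h
  unfold Ctx.WL
  rw [ind_not hn]
  simp

/-- Cauchy-Schwarz in two variables. -/
theorem cs2 (f g : G → G → ℝ) (A B C : ℝ) (hC : 0 ≤ C) (hf : ∑ v, ∑ w, f v w ^ 2 ≤ A)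
    (hg : ∑ v, ∑ w, g v w ^ 2 ≤ B) (hAB : A * B ≤ C ^ 2) :
    ∑ v, ∑ w, f v w * g v w ≤ C := by
  have h1 : (∑ p : G × G, f p.1 p.2 * g p.1 p.2) ^ 2 ≤
      (∑ p : G × G, f p.1 p.2 ^ 2) * ∑ p : G × G, g p.1 p.2 ^ 2 :=
    Finset.sum_mul_sq_le_sq_mul_sq _ _ _
  rw [Fintype.sum_prod_type, Fintype.sum_prod_type, Fintype.sum_prod_type] at h1
  have h2 : (∑ v, ∑ w, f v w * g v w) ^ 2 ≤ C ^ 2 := by
    refine h1.trans (le_trans ?_ hAB)
    refine mul_le_mul hf hg ?_ ?_
    · exact Finset.sum_nonneg (fun _ _ => Finset.sum_nonneg (fun _ _ => sq_nonneg _))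
    · exact le_trans (Finset.sum_nonneg (fun _ _ => Finset.sum_nonneg (fun _ _ => sq_nonneg _))) hf
  exact abs_le_of_sq_le_sq' h2 hC |>.2

end gen

section closed

set_option linter.unusedSectionVars false

variable {G : Type u} [Group G] [Fintype G] [DecidableEq G]

/-- Collisions in a closed walk. -/
theorem closed_le (hK : KERF_S.{u}) (hQ : QQF_S.{u}) (c : Ctx G) (τ : Bool) (a i j : ℕ)
    (hak : c.k ≤ a ∧ a ≤ c.k + 1) (hij : i < j) (hj : j ≤ 6 * a) (hd : j - i ≤ 3 * a) (x : G) :
    ∑ v, c.K τ 0 i x v * c.K τ i (j - i) v v * c.K τ j (6 * a - j) v x ≤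
      2 * c.q τ * (1 / c.b ^ (1 / 2 : ℝ)) := by
  obtain ⟨kDI, kadd, kper, -, -, kgs, kb, -, -, kcc, -, k1⟩ := hK G c τ
  obtain ⟨-, qpos, -, qmono, -, -, -, qmul, q2, -, -, -⟩ := hQ G c τ
  have hr := r0_le c
  have hb := b_one c
  have hrr : 2 ≤ c.r0 := c.hr1
  have hbpos : 0 < c.b := by linarith
  have hsq : 0 < c.b ^ (1 / 2 : ℝ) := Real.rpow_pos_of_pos hbpos _
  have hsb : 1 / c.b ≤ 1 / c.b ^ (1 / 2 : ℝ) := by
    apply one_div_le_one_div_of_le hsq
    calc c.b ^ (1 / 2 : ℝ) ≤ c.b ^ (1 : ℝ) :=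
          Real.rpow_le_rpow_of_exponent_le hb (by norm_num)
      _ = c.b := Real.rpow_one _
  have e2 : ∀ u, u ≤ 4 → c.qq τ (a - u) ≤ 2 * c.q τ := fun u hu =>
    (q2 a u hak.1 hak.2 (by omega)).trans
      (mul_le_mul_of_nonneg_left (qmono c.k a hak.1) (by norm_num))
  have hqp : 0 < c.q τ := qpos c.k
  obtain ⟨κ, hκ⟩ : ∃ κ, κ = c.K τ i (j - i) 1 1 := ⟨_, rfl⟩
  have ev : ∀ v, c.K τ i (j - i) v v = κ := by
    intro v
    have := (kDI i (j - i)).2 v 1 1
    rw [mul_one] at this
    rw [hκ, this]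
  have hκ0 : 0 ≤ κ := by rw [hκ]; exact (kDI _ _).1.nn _ _
  have hsum : ∑ v, c.K τ 0 i x v * c.K τ i (j - i) v v * c.K τ j (6 * a - j) v x =
      κ * c.K τ j (6 * a - j + i) 1 1 := by
    have h1 := sum_v (kDI 0 i).2 (kDI j (6 * a - j)).2 1 x
    have h2 : c.K τ j (6 * a - j) * c.K τ 0 i = c.K τ j (6 * a - j + i) := by
      rw [kadd, show j + (6 * a - j) = 0 + 3 * (2 * a) by omega, K_per c τ kper]
    rw [h2] at h1
    rw [← h1, Finset.mul_sum]
    apply Finset.sum_congr rfl
    intro v _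
    rw [ev, mul_one]
    ring
  rw [hsum]
  obtain ⟨L, hL⟩ : ∃ L, L = c.K τ j (6 * a - j + i) 1 1 := ⟨_, rfl⟩
  have hL0 : 0 ≤ L := by rw [hL]; exact (kDI _ _).1.nn _ _
  rw [← hL]
  have hLq : L ≤ c.qq τ ((6 * a - j + i - 4) / 6) := by
    rw [hL]
    refine (kgs _ _ _ _).trans ?_
    unfold Ctx.gs
    rw [if_pos (by omega)]
  rcases Nat.lt_or_ge (j - i) 10 with h10 | h10
  · have hκb : κ ≤ 1 / c.b := by
      rcases Nat.lt_or_ge (j - i) 2 with h2 | h2
      · have h21 : j - i = 1 := by omega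
        have hz : κ = 0 := by
          rw [hκ, h21, k1]
          have hU : ∀ S : Finset G, (1 : G) ∉ S → UM S 1 1 = 0 := by
            intro S hS
            unfold UM
            rw [ind_not (by simpa using hS), zero_div]
          rcases kcc (i + 1) with h | h
          · rw [h]; exact hU _ c.hB1
          · rw [h]
            unfold WM
            split
            · simp [hU _ c.hB1, hU _ c.hC1]
            · exact hU _ c.hB1
        rw [hz]
        positivity
      · rw [hκ]; exact kb _ _ _ _ (by omega) (by omega)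
    have hL2 : L ≤ 2 * c.q τ :=
      hLq.trans ((qmono (a - 3) _ (by omega)).trans (e2 3 (by omega)))
    calc κ * L ≤ 1 / c.b ^ (1 / 2 : ℝ) * (2 * c.q τ) :=
          mul_le_mul (hκb.trans hsb) hL2 hL0 (by positivity)
      _ = _ := by ring
  · have hκq : κ ≤ c.qq τ ((j - i - 4) / 6) := by
      rw [hκ]
      refine (kgs _ _ _ _).trans ?_
      unfold Ctx.gs
      rw [if_pos (by omega)]
    have b2 := qmul ((j - i - 4) / 6) ((6 * a - j + i - 4) / 6) (by omega) (by omega) (by omega)
    have b3 : c.qq τ ((j - i - 4) / 6 + (6 * a - j + i - 4) / 6) ≤ 2 * c.q τ :=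
      (qmono (a - 3) _ (by omega)).trans (e2 3 (by omega))
    calc κ * L ≤ c.qq τ ((j - i - 4) / 6) * c.qq τ ((6 * a - j + i - 4) / 6) :=
          mul_le_mul hκq hLq hL0 (qpos _).le
      _ ≤ c.qq τ ((j - i - 4) / 6 + (6 * a - j + i - 4) / 6) / c.b ^ (1 / 2 : ℝ) := b2
      _ ≤ 2 * c.q τ / c.b ^ (1 / 2 : ℝ) := div_le_div_of_nonneg_right b3 hsq.le
      _ = _ := by ring

/-- Product of two bounds for sums of squares. -/
theorem g2_mul (hQ : QQF_S.{u}) (c : Ctx G) (τ : Bool) (a s n1 n2 : ℕ)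
    (hak : c.k ≤ a ∧ a ≤ c.k + 1) (hn : n1 + n2 = 3 * a) (hs : s % 3 = 0) :
    0 ≤ c.g2 τ s n1 ∧ 0 ≤ c.g2 τ (s + n1) n2 ∧
    c.g2 τ s n1 * c.g2 τ (s + n1) n2 ≤ 2 * c.q τ ∧
    (n1 ≠ 0 → n2 ≠ 0 →
      c.g2 τ s n1 * c.g2 τ (s + n1) n2 ≤ 2 * c.q τ * (1 / c.b ^ (1 / 2 : ℝ))) := by
  obtain ⟨-, qpos, -, qmono, -, -, -, qmul, q2, -, -, -⟩ := hQ G c τ
  have hr := r0_le c
  have hb := b_one c
  have hrr : 2 ≤ c.r0 := c.hr1
  have hbpos : 0 < c.b := by linarith
  have hsq : 0 < c.b ^ (1 / 2 : ℝ) := Real.rpow_pos_of_pos hbpos _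
  have hsb : 1 / c.b ≤ 1 / c.b ^ (1 / 2 : ℝ) := by
    apply one_div_le_one_div_of_le hsq
    calc c.b ^ (1 / 2 : ℝ) ≤ c.b ^ (1 : ℝ) :=
          Real.rpow_le_rpow_of_exponent_le hb (by norm_num)
      _ = c.b := Real.rpow_one _
  have hb1 : 1 / c.b ≤ 1 := by
    rw [div_le_one hbpos]; exact hb
  have hs1 : 1 / c.b ^ (1 / 2 : ℝ) ≤ 1 := by
    rw [div_le_one hsq]
    exact Real.one_le_rpow hb (by norm_num)
  have hqp : 0 < c.q τ := qpos c.k
  have e2 : ∀ u, u ≤ 8 → c.qq τ (a - u) ≤ 2 * c.q τ := fun u hu =>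
    (q2 a u hak.1 hak.2 (by omega)).trans
      (mul_le_mul_of_nonneg_left (qmono c.k a hak.1) (by norm_num))
  have nn : ∀ i n, 0 ≤ c.g2 τ i n := by
    intro i n
    unfold Ctx.g2
    split
    · exact (qpos _).le
    · split
      · norm_num
      · positivity
  refine ⟨nn _ _, nn _ _, ?_⟩
  have small1 : n1 < 7 → c.g2 τ s n1 ≤ 1 ∧ (n1 ≠ 0 → c.g2 τ s n1 ≤ 1 / c.b) := by
    intro h
    unfold Ctx.g2
    rw [if_neg (by omega)]
    constructor
    · split
      · norm_num
      · exact hb1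
    · intro h0
      rw [if_neg (by omega)]
  have small2 : n2 < 7 → c.g2 τ (s + n1) n2 ≤ 1 ∧ (n2 ≠ 0 → c.g2 τ (s + n1) n2 ≤ 1 / c.b) := by
    intro h
    unfold Ctx.g2
    rw [if_neg (by omega)]
    constructor
    · split
      · norm_num
      · exact hb1
    · intro h0
      rw [if_neg (by omega)]
  rcases Nat.lt_or_ge n1 7 with h1 | h1
  · have h2 : c.g2 τ (s + n1) n2 ≤ 2 * c.q τ := by
      unfold Ctx.g2
      rw [if_pos (by omega)]
      exact (qmono (a - 4) _ (by omega)).trans (e2 4 (by omega))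
    constructor
    · calc _ ≤ 1 * (2 * c.q τ) := mul_le_mul (small1 h1).1 h2 (nn _ _) (by norm_num)
        _ = _ := one_mul _
    · intro hn1 _
      calc _ ≤ 1 / c.b * (2 * c.q τ) := mul_le_mul ((small1 h1).2 hn1) h2 (nn _ _) (by positivity)
        _ ≤ 1 / c.b ^ (1 / 2 : ℝ) * (2 * c.q τ) := mul_le_mul_of_nonneg_right hsb (by positivity)
        _ = _ := by ring
  · rcases Nat.lt_or_ge n2 7 with h2 | h2
    · have h3 : c.g2 τ s n1 ≤ 2 * c.q τ := by
        unfold Ctx.g2
        rw [if_pos (by omega)]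
        exact (qmono (a - 4) _ (by omega)).trans (e2 4 (by omega))
      constructor
      · calc _ ≤ (2 * c.q τ) * 1 := mul_le_mul h3 (small2 h2).1 (nn _ _) (by positivity)
          _ = _ := mul_one _
      · intro _ hn2
        calc _ ≤ (2 * c.q τ) * (1 / c.b) :=
              mul_le_mul h3 ((small2 h2).2 hn2) (nn _ _) (by positivity)
          _ ≤ (2 * c.q τ) * (1 / c.b ^ (1 / 2 : ℝ)) :=
              mul_le_mul_of_nonneg_left hsb (by positivity)
    · have e : c.g2 τ s n1 * c.g2 τ (s + n1) n2 = c.qq τ ((n1 - 4) / 3) * c.qq τ ((n2 - 4) / 3) := by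
        unfold Ctx.g2
        rw [if_pos h1, if_pos h2]
      have b2 := qmul ((n1 - 4) / 3) ((n2 - 4) / 3) (by omega) (by omega) (by omega)
      have b3 : c.qq τ ((n1 - 4) / 3 + (n2 - 4) / 3) ≤ 2 * c.q τ :=
        (qmono (a - 4) _ (by omega)).trans (e2 4 (by omega))
      have b4 : c.g2 τ s n1 * c.g2 τ (s + n1) n2 ≤ 2 * c.q τ * (1 / c.b ^ (1 / 2 : ℝ)) := by
        rw [e]
        calc _ ≤ c.qq τ ((n1 - 4) / 3 + (n2 - 4) / 3) / c.b ^ (1 / 2 : ℝ) := b2
          _ ≤ 2 * c.q τ / c.b ^ (1 / 2 : ℝ) := div_le_div_of_nonneg_right b3 hsq.le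
          _ = _ := by ring
      refine ⟨b4.trans ?_, fun _ _ => b4⟩
      calc 2 * c.q τ * (1 / c.b ^ (1 / 2 : ℝ)) ≤ 2 * c.q τ * 1 :=
            mul_le_mul_of_nonneg_left hs1 (by positivity)
        _ = _ := mul_one _

end closed

theorem wlkf (hK : KERF_S.{u}) (hQ : QQF_S.{u}) (hN : NUMF_S.{u}) (hC : CPLF_S.{u}) :
    WLKF_S.{u} := by
  intro G _ _ _ c τ par x y hadm
  obtain ⟨kDI, kadd, kper, ktr, -, -, -, kr2, kc2, -, ccDI, k1⟩ := hK G c τ
  obtain ⟨-, qpos, -, qmono, -, -, -, -, -, -, -, -⟩ := hQ G c τ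
  obtain ⟨-, -, -, -, -, -, -, -, -, hb1pos, -, hb14, -, -, -, -⟩ := hN G c
  obtain ⟨hF, -⟩ := hC G c τ par x y hadm
  have hr := r0_le c
  have hb := b_one c
  have hbpos : 0 < c.b := by linarith
  have hqp : 0 < c.q τ := qpos c.k
  have hF0 : 0 < c.FF τ par x y := by nlinarith
  -- notation
  obtain ⟨a, ha⟩ : ∃ a, a = c.ha par := ⟨_, rfl⟩
  have hak : c.k ≤ a ∧ a ≤ c.k + 1 := by
    rcases ha_eq c par with h | h <;> rw [ha, h] <;> constructor <;> omega
  obtain ⟨m, hm⟩ : ∃ m, m = c.mid par := ⟨_, rfl⟩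
  have hma : m = 3 * a := by
    rw [hm, ha]
    unfold Ctx.mid Ctx.ha
    split <;> omega
  have hlen : c.len par = m + 3 * c.k := by
    rw [hm]
    unfold Ctx.mid Ctx.len
    split <;> omega
  obtain ⟨ρ, hρ⟩ : ∃ ρ, ρ = c.rh τ par x y := ⟨_, rfl⟩
  have hρv : ∀ v, ρ v = rho (c.K τ 0 m x v) (c.K τ m (3 * c.k) v y) := by
    intro v
    rw [hρ]
    unfold Ctx.rh
    rw [← hm, show c.len par - m = 3 * c.k by omega]
  have hcx : c.cx τ par x y = cpl (c.cc τ) m ρ := by
    unfold Ctx.cx
    rw [← hm, ← hρ]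
  have kn : ∀ i n v w, 0 ≤ c.K τ i n v w := fun i n => (kDI i n).1.nn
  have hρ0 : ∀ v, 0 ≤ ρ v := fun v => by rw [hρv]; exact rho_nonneg (kn _ _ _ _) (kn _ _ _ _)
  have hρ1 : ∀ v, ρ v ≤ 1 := fun v => by rw [hρv]; exact rho_le_one (kn _ _ _ _) (kn _ _ _ _)
  have hρR : ∀ v, ρ v * c.K τ m (3 * c.k) v y ≤ c.K τ 0 m x v := fun v => by
    rw [hρv]; exact rho_mul_right (kn _ _ _ _) (kn _ _ _ _)
  have hρL : ∀ v, ρ v * c.K τ 0 m x v ≤ c.K τ m (3 * c.k) v y := fun v => by
    rw [hρv]; exact rho_mul_left (kn _ _ _ _) (kn _ _ _ _)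
  have hcxn : ∀ p v w, 0 ≤ c.cx τ par x y p v w := by
    intro p v w
    rw [hcx]
    by_cases h : p = m
    · rw [h, cpl_eq]
      exact mul_nonneg ((ccDI m).1.nn _ _) (hρ0 _)
    · rw [cpl_ne _ _ _ _ h]
      exact (ccDI p).1.nn _ _
  have hsum : ∑ z, c.WL τ par x y z = 1 := by
    unfold Ctx.WL
    rw [← Finset.sum_div, H43.sum_path]
    exact div_self hF0.ne'
  have hnn : ∀ z, 0 ≤ c.WL τ par x y z := by
    intro z
    unfold Ctx.WL
    apply div_nonneg (mul_nonneg (ind_nonneg _) _) hF0.le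
    exact Finset.prod_nonneg (fun i _ => hcxn _ _ _)
  refine ⟨⟨hnn, hsum⟩, ?_, ?_, ?_⟩
  · intro j hj v v'
    rw [pr_two c τ par x y j (j + 1) (Nat.lt_succ_self j) (by omega) v v']
    unfold Ctx.U
    have e1 : Kn (c.cx τ par x y) j (j + 1 - j) = c.cx τ par x y (j + 1) := by
      rw [Nat.add_sub_cancel_left]
      simp [Kn]
    rw [e1, show c.len par - (j + 1) = c.len par - 1 - j by omega]
  · intro j hj v
    unfold Ctx.U1
    rcases Nat.lt_or_ge j (c.len par) with hlt | hge
    · have := pr_two c τ par x y j (c.len par) hlt (Nat.lt_succ_self _) v y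
      rw [Nat.sub_self] at this
      simp only [Kn, Matrix.one_apply, if_true, mul_one] at this
      rw [← this]
      apply H43.pr_congr
      intro z hz
      have := wl_ne c τ par x y z hz
      exact ⟨fun h => ⟨h, this.2⟩, fun h => h.1⟩
    · have hjj : j = c.len par := by omega
      subst hjj
      rw [Nat.sub_self]
      simp only [Kn, Matrix.one_apply]
      by_cases hv : v = y
      · subst hv
        rw [if_pos rfl, mul_one]
        have : Kn (c.cx τ par x v) 0 (c.len par) x v = c.FF τ par x v := rfl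
        rw [this, div_self hF0.ne', ← hsum]
        unfold Pr
        apply Finset.sum_congr rfl
        intro z _
        by_cases h0 : c.WL τ par x v z = 0
        · rw [h0]; ring
        · have := wl_ne c τ par x v z h0
          rw [ind_of (show z ⟨c.len par, hj⟩ = v from this.2), mul_one]
      · rw [if_neg hv, mul_zero, zero_div]
        unfold Pr
        apply Finset.sum_eq_zero
        intro z _
        by_cases h0 : c.WL τ par x y z = 0
        · rw [h0]; ring
        · have := wl_ne c τ par x y z h0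
          rw [ind_not, mul_zero]
          intro h
          exact hv (h.symm.trans this.2)
  · intro i j hi hj hij hne
    have e0 : Pr (c.WL τ par x y) (fun z => z ⟨i, hi⟩ = z ⟨j, hj⟩) =
        ∑ v, Pr (c.WL τ par x y) (fun z => z ⟨i, hi⟩ = v ∧ z ⟨j, hj⟩ = v) := by
      unfold Pr
      rw [Finset.sum_comm]
      apply Finset.sum_congr rfl
      intro z _
      rw [← Finset.mul_sum, ← H43.ind_sum]
    rw [e0]
    simp only [pr_two c τ par x y i j hij hj]
    rw [← Finset.sum_div, hcx]
    -- comparison of powers of `b`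
    have hbb : 1 / c.b ^ (1 / 2 : ℝ) = (1 / c.b1) ^ 2 := by
      have h1 : c.b ^ (1 / 2 : ℝ) = c.b1 ^ 2 := by
        unfold Ctx.b1
        rw [← Real.rpow_natCast, ← Real.rpow_mul hbpos.le]
        norm_num
      rw [h1, one_div_pow]
    have hb1one : 1 ≤ c.b1 := by
      unfold Ctx.b1
      exact Real.one_le_rpow hb (by norm_num)
    have hib1 : 0 < 1 / c.b1 := by positivity
    have hib2 : 1 / c.b1 ≤ 1 := by
      rw [div_le_one hb1pos]; exact hb1one
    have fin : ∀ S : ℝ, S ≤ 2 * c.q τ * (1 / c.b1) → S / c.FF τ par x y ≤ 4 / c.b1 := by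
      intro S hS
      rw [div_le_iff₀ hF0]
      calc S ≤ 2 * c.q τ * (1 / c.b1) := hS
        _ ≤ 4 * ((8 / 10 : ℝ) * c.q τ) * (1 / c.b1) := by
            apply mul_le_mul_of_nonneg_right _ hib1.le
            linarith
        _ ≤ 4 * c.FF τ par x y * (1 / c.b1) := by
            apply mul_le_mul_of_nonneg_right _ hib1.le
            linarith
        _ = 4 / c.b1 * c.FF τ par x y := by ring
    apply fin
    have hsq1 : 2 * c.q τ * (1 / c.b ^ (1 / 2 : ℝ)) ≤ 2 * c.q τ * (1 / c.b1) := by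
      apply mul_le_mul_of_nonneg_left _ (by positivity)
      rw [hbb, sq]
      nlinarith
    have kzero : ∀ i v w, c.K τ i 0 v w = if v = w then 1 else 0 := by
      intro i v w
      simp only [Ctx.K, Kn, Matrix.one_apply]
    -- the transposes of the two halves
    have tr0 : ∀ v w, c.K τ 0 m v w = c.K τ m m w v := by
      intro v w
      have h1 := ktr 0 0 m (by omega)
      have h2 : c.K τ m m = c.K τ 0 m := by
        have := K_per c τ kper a 0 m
        rw [zero_add, ← hma] at this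
        exact this
      rw [h2]
      exact (congrFun (congrFun h1 v) w).symm
    have tr1 : ∀ v w, c.K τ m (3 * c.k) v w = c.K τ 0 (3 * c.k) w v := by
      intro v w
      have h1 := ktr 0 0 (3 * c.k) (by omega)
      have h2 : c.K τ m (3 * c.k) = c.K τ 0 (3 * c.k) := by
        have := K_per c τ kper a 0 (3 * c.k)
        rw [zero_add, ← hma] at this
        exact this
      rw [h2]
      exact (congrFun (congrFun h1 v) w).symm
    rcases Nat.lt_or_ge m j with hmj | hmj
    · rcases Nat.lt_or_ge i m with him | him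
      · -- different halves
        have eL : Kn (cpl (c.cc τ) m ρ) 0 i = c.K τ 0 i :=
          kn_cpl_free _ _ _ _ _ (Or.inl (by omega))
        have eR : Kn (cpl (c.cc τ) m ρ) j (c.len par - j) = c.K τ j (c.len par - j) :=
          kn_cpl_free _ _ _ _ _ (Or.inr (by omega))
        have eM : ∀ v, Kn (cpl (c.cc τ) m ρ) i (j - i) v v =
            ∑ w, c.K τ i (m - i) v w * ρ w * c.K τ m (j - m) w v := by
          intro v
          rw [kn_cpl_split _ _ _ _ _ him (by omega), show i + (j - i) - m = j - m by omega]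
          rfl
        have hle : ∑ v, Kn (cpl (c.cc τ) m ρ) 0 i x v * Kn (cpl (c.cc τ) m ρ) i (j - i) v v *
            Kn (cpl (c.cc τ) m ρ) j (c.len par - j) v y ≤
            ∑ v, ∑ w, (c.K τ 0 i x v * c.K τ i (m - i) v w) *
              (c.K τ m (j - m) w v * c.K τ j (c.len par - j) v y) := by
          apply Finset.sum_le_sum
          intro v _
          rw [eL, eR, eM, Finset.mul_sum, Finset.sum_mul]
          apply Finset.sum_le_sum
          intro w _
          calc c.K τ 0 i x v * (c.K τ i (m - i) v w * ρ w * c.K τ m (j - m) w v) *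
                c.K τ j (c.len par - j) v y =
                ρ w * ((c.K τ 0 i x v * c.K τ i (m - i) v w) *
                  (c.K τ m (j - m) w v * c.K τ j (c.len par - j) v y)) := by ring
            _ ≤ 1 * ((c.K τ 0 i x v * c.K τ i (m - i) v w) *
                  (c.K τ m (j - m) w v * c.K τ j (c.len par - j) v y)) := by
                apply mul_le_mul_of_nonneg_right (hρ1 w)
                exact mul_nonneg (mul_nonneg (kn _ _ _ _) (kn _ _ _ _))
                  (mul_nonneg (kn _ _ _ _) (kn _ _ _ _))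
            _ = _ := one_mul _
        refine hle.trans ?_
        obtain ⟨gn1, gn2, ga, gb⟩ := g2_mul hQ c τ a 0 i (m - i) hak (by omega) (by omega)
        obtain ⟨gn3, gn4, gc, gd⟩ := g2_mul hQ c τ c.k m (j - m) (c.len par - j) ⟨le_rfl, by omega⟩
          (by omega) (by omega)
        rw [zero_add] at ga gb gn2
        rw [show m + (j - m) = j by omega] at gc gd gn4
        have hf : ∑ v, ∑ w, (c.K τ 0 i x v * c.K τ i (m - i) v w) ^ 2 ≤
            c.g2 τ 0 i * c.g2 τ i (m - i) := by
          calc ∑ v, ∑ w, (c.K τ 0 i x v * c.K τ i (m - i) v w) ^ 2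
              = ∑ v, c.K τ 0 i x v ^ 2 * ∑ w, c.K τ i (m - i) v w ^ 2 := by
                apply Finset.sum_congr rfl
                intro v _
                rw [Finset.mul_sum]
                apply Finset.sum_congr rfl
                intro w _
                ring
            _ ≤ ∑ v, c.K τ 0 i x v ^ 2 * c.g2 τ i (m - i) := by
                apply Finset.sum_le_sum
                intro v _
                exact mul_le_mul_of_nonneg_left (kr2 _ _ _) (sq_nonneg _)
            _ ≤ _ := by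
                rw [← Finset.sum_mul]
                exact mul_le_mul_of_nonneg_right (kr2 _ _ _) gn2
        have hg : ∑ v, ∑ w, (c.K τ m (j - m) w v * c.K τ j (c.len par - j) v y) ^ 2 ≤
            c.g2 τ m (j - m) * c.g2 τ j (c.len par - j) := by
          calc ∑ v, ∑ w, (c.K τ m (j - m) w v * c.K τ j (c.len par - j) v y) ^ 2
              = ∑ v, (∑ w, c.K τ m (j - m) w v ^ 2) * c.K τ j (c.len par - j) v y ^ 2 := by
                apply Finset.sum_congr rfl
                intro v _
                rw [Finset.sum_mul]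
                apply Finset.sum_congr rfl
                intro w _
                ring
            _ ≤ ∑ v, c.g2 τ m (j - m) * c.K τ j (c.len par - j) v y ^ 2 := by
                apply Finset.sum_le_sum
                intro v _
                exact mul_le_mul_of_nonneg_right (kc2 _ _ _) (sq_nonneg _)
            _ ≤ _ := by
                rw [← Finset.mul_sum]
                exact mul_le_mul_of_nonneg_left (kc2 _ _ _) gn3
        refine cs2 _ _ _ _ _ (by positivity) hf hg ?_
        have hp1 : 0 ≤ c.g2 τ 0 i * c.g2 τ i (m - i) := mul_nonneg gn1 gn2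
        have hp2 : 0 ≤ c.g2 τ m (j - m) * c.g2 τ j (c.len par - j) := mul_nonneg gn3 gn4
        have htarget : (2 * c.q τ * (1 / c.b1)) ^ 2 =
            (2 * c.q τ) * (2 * c.q τ * (1 / c.b ^ (1 / 2 : ℝ))) := by
          rw [hbb]; ring
        rw [htarget]
        have hgain : 0 ≤ 2 * c.q τ * (1 / c.b ^ (1 / 2 : ℝ)) := by
          rw [hbb]; positivity
        rcases Nat.eq_zero_or_pos i with h0 | h0
        · have hjl : c.len par - j ≠ 0 := by
            intro h
            exact hne ⟨h0, by omega⟩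
          have := gd (by omega) hjl
          exact mul_le_mul ga this hp2 (by positivity)
        · have := gb (by omega) (by omega)
          calc _ ≤ (2 * c.q τ * (1 / c.b ^ (1 / 2 : ℝ))) * (2 * c.q τ) :=
                mul_le_mul this gc hp2 hgain
            _ = _ := by ring
      · -- second half
        have hk2 : i - m < j - m := by omega
        have eL : Kn (cpl (c.cc τ) m ρ) 0 i x = fun v =>
            ∑ w, c.K τ 0 m x w * ρ w * c.K τ m (i - m) w v := by
          funext v
          rw [kn_cpl_split _ _ _ _ _ (by omega) (by omega), zero_add, Nat.sub_zero]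
          rfl
        have eM : Kn (cpl (c.cc τ) m ρ) i (j - i) = c.K τ i (j - i) :=
          kn_cpl_free _ _ _ _ _ (Or.inr (by omega))
        have eR : Kn (cpl (c.cc τ) m ρ) j (c.len par - j) = c.K τ j (c.len par - j) :=
          kn_cpl_free _ _ _ _ _ (Or.inr (by omega))
        have perm : ∀ s n, c.K τ (m + s) n = c.K τ (3 * c.k + s) n := by
          intro s n
          rw [hma, show 3 * a + s = s + 3 * a by omega, K_per c τ kper,
            show 3 * c.k + s = s + 3 * c.k by omega, K_per c τ kper]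
        have hLle : ∀ v, Kn (cpl (c.cc τ) m ρ) 0 i x v ≤ c.K τ 0 (3 * c.k + (i - m)) y v := by
          intro v
          rw [eL, kadd, zero_add, Matrix.mul_apply]
          apply Finset.sum_le_sum
          intro w _
          have h1 : c.K τ m (i - m) = c.K τ (3 * c.k) (i - m) := by
            have := perm 0 (i - m)
            simpa using this
          rw [h1]
          apply mul_le_mul_of_nonneg_right _ (kn _ _ _ _)
          rw [mul_comm, ← tr1]
          exact hρL w
        have e1 : c.K τ i (j - i) = c.K τ (3 * c.k + (i - m)) (j - i) := by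
          have := perm (i - m) (j - i)
          rw [show m + (i - m) = i by omega] at this
          exact this
        have e2 : c.K τ j (c.len par - j) =
            c.K τ (3 * c.k + (j - m)) (6 * c.k - (3 * c.k + (j - m))) := by
          have := perm (j - m) (c.len par - j)
          rw [show m + (j - m) = j by omega] at this
          rw [this, show c.len par - j = 6 * c.k - (3 * c.k + (j - m)) by omega]
        have hcl := closed_le hK hQ c τ c.k (3 * c.k + (i - m)) (3 * c.k + (j - m))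
          ⟨le_rfl, by omega⟩ (by omega) (by omega) (by omega) y
        rw [show 3 * c.k + (j - m) - (3 * c.k + (i - m)) = j - i by omega] at hcl
        refine le_trans ?_ (hcl.trans hsq1)
        apply Finset.sum_le_sum
        intro v _
        rw [eM, eR, ← e1, ← e2]
        exact mul_le_mul_of_nonneg_right (mul_le_mul_of_nonneg_right (hLle v) (kn _ _ _ _))
          (kn _ _ _ _)
    · -- first half
      have him : i < m := by omega
      have eL : Kn (cpl (c.cc τ) m ρ) 0 i = c.K τ 0 i :=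
        kn_cpl_free _ _ _ _ _ (Or.inl (by omega))
      have h6 : 6 * a - j = (m - j) + m := by omega
      have hRle : ∀ v, Kn (cpl (c.cc τ) m ρ) i (j - i) v v *
          Kn (cpl (c.cc τ) m ρ) j (c.len par - j) v y ≤
          c.K τ i (j - i) v v * c.K τ j (6 * a - j) v x := by
        intro v
        rcases Nat.lt_or_ge j m with hjm | hjm
        · have eM : Kn (cpl (c.cc τ) m ρ) i (j - i) = c.K τ i (j - i) :=
            kn_cpl_free _ _ _ _ _ (Or.inl (by omega))
          rw [eM]
          apply mul_le_mul_of_nonneg_left _ (kn _ _ _ _)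
          rw [kn_cpl_split _ _ _ _ _ hjm (by omega), h6, kadd, Matrix.mul_apply,
            show j + (m - j) = m by omega, show j + (c.len par - j) - m = 3 * c.k by omega]
          apply Finset.sum_le_sum
          intro w _
          rw [mul_assoc]
          apply mul_le_mul_of_nonneg_left _ (kn _ _ _ _)
          rw [← tr0]
          exact hρR w
        · have hjm' : j = m := by omega
          subst hjm'
          rw [kn_cpl_mid _ _ _ _ him, kn_cpl_free _ _ _ _ _ (Or.inr le_rfl), h6, Nat.sub_self,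
            zero_add, ← tr0, show c.len par - j = 3 * c.k by omega, mul_assoc]
          exact mul_le_mul_of_nonneg_left (hρR v) (kn _ _ _ _)
      have hcl := closed_le hK hQ c τ a i j hak hij (by omega) (by omega) x
      refine le_trans ?_ (hcl.trans hsq1)
      apply Finset.sum_le_sum
      intro v _
      rw [eL, mul_assoc, mul_assoc]
      exact mul_le_mul_of_nonneg_left (hRle v) (kn _ _ _ _)

end Pool.Agent.Lib.MP_688fd0_co.TF.H91
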